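import Pool.Agent.H587R3.Walk

set_option autoImplicit false

/-!
Statement (B) fails: `F_{1.5} = R(polylog)` has no quasi-polynomial size refutations of the
pigeonhole principle with `n + √n` pigeons and `n` holes; the number of sequents is exponential.

The proof splits the `n` holes into `e = m - n` blocks of `B = ⌊n/e⌋` holes and gives `B + 1` pigeons to
each block, the same matching variables being used in every block; then a one-step matching switching
lemma is applied to `PHP_B^{B+1}`.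
-/

namespace Pool.Agent.Results.MP_c109c8_lc.NoQuasipolyFrege15

open Finset Pool.Agent.H587R3

/-- A literal: `(x, true)` is the variable `x`, `(x, false)` is its negation. -/
abbrev Lit (X : Type) : Type := X × Bool

/-- The formulas of `F_{1.5}`: clauses (disjunctions of literals) and conjunctions of literals. -/
inductive Fml (X : Type) : Type
  | clause (c : Finset (Lit X)) : Fml X
  | conj (c : Finset (Lit X)) : Fml X

/-- the number of literals -/
def Fml.width {X : Type} : Fml X → ℕ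
  | .clause c => c.card
  | .conj c => c.card

/-- satisfaction of a formula by an assignment -/
def Fml.Sat {X : Type} (a : X → Bool) : Fml X → Prop
  | .clause c => ∃ l ∈ c, a l.1 = l.2
  | .conj c => ∀ l ∈ c, a l.1 = l.2

/-- A sequent `ant → suc`: the conjunction of `ant` implies the disjunction of `suc`. -/
structure Sequent (X : Type) : Type where
  /-- the antecedent -/
  ant : Set (Fml X)
  /-- the succedent -/
  suc : Set (Fml X)

/-- satisfaction of a sequent by an assignment -/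
def Sequent.Sat {X : Type} (a : X → Bool) (S : Sequent X) : Prop :=
  (∀ φ ∈ S.ant, φ.Sat a) → ∃ φ ∈ S.suc, φ.Sat a

/-- The clauses of the negation of `PHP_n^m`, with variables `x_{ij}`, `i ∈ [m]`, `j ∈ [n]`. -/
def phpClauses (n m : ℕ) : Set (Fml (Fin m × Fin n)) :=
  {C | ∃ i : Fin m, C = .clause (univ.image fun j : Fin n => ((i, j), true))} ∪
    {C | ∃ i₁ i₂ : Fin m, ∃ j : Fin n, i₁ ≠ i₂ ∧ C = .clause {((i₁, j), false), ((i₂, j), false)}}

/-- A refutation of the clauses of `¬PHP_n^m` by sequents of clauses and conjunctions of width at most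
`w`, in which every sequent is a semantic consequence of at most `f` earlier sequents and at most `f`
clauses of `¬PHP_n^m`, and which contains the empty sequent. -/
structure Refutation (n m w f : ℕ) : Type where
  /-- the number of sequents -/
  len : ℕ
  /-- the sequents -/
  line : Fin len → Sequent (Fin m × Fin n)
  /-- all formulas have width at most `w` -/
  width_le : ∀ i, ∀ φ, φ ∈ (line i).ant ∨ φ ∈ (line i).suc → φ.width ≤ w
  /-- every sequent follows from few premises -/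
  infer : ∀ i, ∃ P : Finset (Fin len), ∃ Q : Set (Fml (Fin m × Fin n)),
    P.card ≤ f ∧ Q.encard ≤ f ∧ (∀ j ∈ P, j < i) ∧ Q ⊆ phpClauses n m ∧
    ∀ a, (∀ j ∈ P, (line j).Sat a) → (∀ C ∈ Q, C.Sat a) → (line i).Sat a
  /-- the empty sequent is derived -/
  last : ∃ i, (line i).ant = ∅ ∧ (line i).suc = ∅

/-- a sequent as a set of terms -/
def toD {X : Type} [DecidableEq X] (S : Sequent X) : Set (Finset (X × Bool)) :=
  {T | (∃ c, Fml.clause c ∈ S.suc ∧ ∃ l ∈ c, T = {l}) ∨ (Fml.conj T ∈ S.suc) ∨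
    (∃ c, Fml.clause c ∈ S.ant ∧ T = c.image fun l => (l.1, !l.2)) ∨
    (∃ c, Fml.conj c ∈ S.ant ∧ ∃ l ∈ c, T = {(l.1, !l.2)})}

lemma ne_iff_not (b c : Bool) : (b = !c) ↔ ¬ b = c := by cases b <;> cases c <;> simp

lemma satD_toD {X : Type} [DecidableEq X] (a : X → Bool) (S : Sequent X) :
    SatD a (toD S) ↔ S.Sat a := by
  constructor
  · rintro ⟨T, hT, hs⟩ hant
    rcases hT with ⟨c, hc, l, hl, rfl⟩ | hT | ⟨c, hc, rfl⟩ | ⟨c, hc, l, hl, rfl⟩
    · exact ⟨_, hc, l, hl, hs l (mem_singleton_self _)⟩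
    · exact ⟨_, hT, hs⟩
    · obtain ⟨l, hl, h1⟩ := hant _ hc
      have h2 := hs (l.1, !l.2) (mem_image_of_mem _ hl)
      exact absurd h1 ((ne_iff_not _ _).1 h2)
    · have h1 := hant _ hc l hl
      have h2 := hs (l.1, !l.2) (mem_singleton_self _)
      exact absurd h1 ((ne_iff_not _ _).1 h2)
  · intro h
    by_cases hant : ∀ φ ∈ S.ant, φ.Sat a
    · obtain ⟨φ, hφ, hs⟩ := h hant
      cases φ with
      | clause c =>
        obtain ⟨l, hl, h1⟩ := hs
        refine ⟨{l}, Or.inl ⟨c, hφ, l, hl, rfl⟩, ?_⟩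
        intro l' hl'
        rw [mem_singleton] at hl'
        rw [hl']; exact h1
      | conj c => exact ⟨c, Or.inr (Or.inl hφ), hs⟩
    · push Not at hant
      obtain ⟨φ, hφ, hs⟩ := hant
      cases φ with
      | clause c =>
        refine ⟨_, Or.inr (Or.inr (Or.inl ⟨c, hφ, rfl⟩)), ?_⟩
        intro l' hl'
        obtain ⟨l, hl, rfl⟩ := mem_image.1 hl'
        refine (ne_iff_not _ _).2 fun h1 => hs ⟨l, hl, h1⟩
      | conj c =>
        have : ∃ l ∈ c, ¬ a l.1 = l.2 := by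
          by_contra hcon
          push Not at hcon
          exact hs hcon
        obtain ⟨l, hl, h1⟩ := this
        refine ⟨{(l.1, !l.2)}, Or.inr (Or.inr (Or.inr ⟨c, hφ, l, hl, rfl⟩)), ?_⟩
        intro l' hl'
        rw [mem_singleton] at hl'
        rw [hl']
        exact (ne_iff_not _ _).2 h1

lemma card_toD {X : Type} [DecidableEq X] {S : Sequent X} {w : ℕ}
    (h : ∀ φ, φ ∈ S.ant ∨ φ ∈ S.suc → φ.width ≤ w) : ∀ T ∈ toD S, T.card ≤ w := by
  intro T hT
  rcases hT with ⟨c, hc, l, hl, rfl⟩ | hT | ⟨c, hc, rfl⟩ | ⟨c, hc, l, hl, rfl⟩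
  · have h1 : c.card ≤ w := h _ (Or.inr hc)
    have h2 : 0 < c.card := card_pos.2 ⟨l, hl⟩
    rw [card_singleton]; omega
  · exact h _ (Or.inr hT)
  · have h1 : c.card ≤ w := h _ (Or.inl hc)
    exact card_image_le.trans h1
  · have h1 : c.card ≤ w := h _ (Or.inl hc)
    have h2 : 0 < c.card := card_pos.2 ⟨l, hl⟩
    rw [card_singleton]; omega

/-- the block substitution -/
def blk (n e B : ℕ) (hB : 0 < B) : Sub (Fin (n + e) × Fin n) B := fun x =>
  if x.1.1 < e * (B + 1) ∧ x.2.1 < e * B then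
    if x.1.1 / (B + 1) = x.2.1 / B then
      Sum.inl (⟨x.1.1 % (B + 1), Nat.mod_lt _ (by omega)⟩, ⟨x.2.1 % B, Nat.mod_lt _ hB⟩)
    else Sum.inr false
  else if e * (B + 1) ≤ x.1.1 ∧ e * B ≤ x.2.1 then
    Sum.inr (decide (x.1.1 - e * (B + 1) = x.2.1 - e * B))
  else Sum.inr false

lemma asg_blk_block {n e B : ℕ} {hB : 0 < B} {π : Finset (Edge B)} {p : Fin (n + e)} {h : Fin n}
    (h1 : p.1 < e * (B + 1)) (h2 : h.1 < e * B) :
    asg (blk n e B hB) π (p, h) = true ↔ p.1 / (B + 1) = h.1 / B ∧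
      ((⟨p.1 % (B + 1), Nat.mod_lt _ (by omega)⟩, ⟨h.1 % B, Nat.mod_lt _ hB⟩) : Edge B) ∈ π := by
  by_cases h3 : p.1 / (B + 1) = h.1 / B
  · have : blk n e B hB (p, h) = Sum.inl (⟨p.1 % (B + 1), Nat.mod_lt _ (by omega)⟩,
        ⟨h.1 % B, Nat.mod_lt _ hB⟩) := by
      unfold blk; simp [h1, h2, h3]
    rw [asg_inl this]
    simp [h3]
  · have : blk n e B hB (p, h) = Sum.inr false := by
      unfold blk; simp [h1, h2, h3]
    rw [asg_inr this]
    simp [h3]

lemma asg_blk_rest {n e B : ℕ} {hB : 0 < B} {π : Finset (Edge B)} {p : Fin (n + e)} {h : Fin n}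
    (h1 : e * (B + 1) ≤ p.1) (h2 : e * B ≤ h.1) :
    asg (blk n e B hB) π (p, h) = true ↔ p.1 - e * (B + 1) = h.1 - e * B := by
  have : blk n e B hB (p, h) = Sum.inr (decide (p.1 - e * (B + 1) = h.1 - e * B)) := by
    unfold blk; simp [h1, h2, not_lt.2 h1]
  rw [asg_inr this]
  simp

lemma asg_blk_mixed {n e B : ℕ} {hB : 0 < B} {π : Finset (Edge B)} {p : Fin (n + e)} {h : Fin n}
    (h1 : ¬ (p.1 < e * (B + 1) ↔ h.1 < e * B)) :
    ¬ asg (blk n e B hB) π (p, h) = true := by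
  have : blk n e B hB (p, h) = Sum.inr false := by
    unfold blk
    have h2 : ¬ (p.1 < e * (B + 1) ∧ h.1 < e * B) := by
      rintro ⟨h3, h4⟩; exact h1 ⟨fun _ => h4, fun _ => h3⟩
    have h3 : ¬ (e * (B + 1) ≤ p.1 ∧ e * B ≤ h.1) := by
      rintro ⟨h3, h4⟩
      exact h1 ⟨fun h => absurd h (not_lt.2 h3), fun h => absurd h (not_lt.2 h4)⟩
    simp only [h2, h3, if_false]
  rw [asg_inr this]
  simp

/-- the axioms can be satisfied by extending the matching by at most one edge -/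
lemma ax_ok {n e B : ℕ} (hB : 0 < B) (hn : e * B ≤ n) :
    ∀ C ∈ phpClauses n (n + e), ∀ π : Finset (Edge B), IsM π → π.card < B →
      ∃ π', π ⊆ π' ∧ IsM π' ∧ π'.card ≤ π.card + 1 ∧
        ∀ π'', π' ⊆ π'' → IsM π'' → C.Sat (asg (blk n e B hB) π'') := by
  intro C hC π hπ hπc
  rcases hC with ⟨p, rfl⟩ | ⟨p₁, p₂, h, hne, rfl⟩
  · by_cases hp : p.1 < e * (B + 1)
    · obtain ⟨π', h1, h2, h3, h4, -⟩ := exists_cover hπ ∅
        {(⟨p.1 % (B + 1), Nat.mod_lt _ (by omega)⟩ : Fin (B + 1))} (by simp; omega)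
      refine ⟨π', h1, h2, by simpa using h3, ?_⟩
      intro π'' h5 h6
      obtain ⟨e', he', h7⟩ := h4 _ (mem_singleton_self _)
      have hb : p.1 / (B + 1) < e := by
        rw [Nat.div_lt_iff_lt_mul (by omega)]; exact hp
      have hj := e'.2.2
      have hlt : p.1 / (B + 1) * B + e'.2.1 < e * B := by
        calc p.1 / (B + 1) * B + e'.2.1 < p.1 / (B + 1) * B + B := by omega
          _ = (p.1 / (B + 1) + 1) * B := by ring
          _ ≤ e * B := Nat.mul_le_mul_right _ hb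
      have hlt' : p.1 / (B + 1) * B + e'.2.1 < n := by omega
      refine ⟨((p, ⟨p.1 / (B + 1) * B + e'.2.1, hlt'⟩), true),
        mem_image_of_mem _ (mem_univ _), ?_⟩
      refine (asg_blk_block hp hlt).2 ⟨?_, ?_⟩
      · simp only
        rw [mul_comm, Nat.mul_add_div hB, Nat.div_eq_of_lt hj, add_zero]
      · apply h5
        have : e' = (⟨p.1 % (B + 1), Nat.mod_lt _ (by omega)⟩,
            ⟨(p.1 / (B + 1) * B + e'.2.1) % B, Nat.mod_lt _ hB⟩) := by
          refine Prod.ext h7 (Fin.ext ?_)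
          simp only
          rw [mul_comm, Nat.mul_add_mod, Nat.mod_eq_of_lt hj]
        rw [← this]; exact he'
    · refine ⟨π, Subset.refl _, hπ, by omega, ?_⟩
      intro π'' _ _
      rw [not_lt] at hp
      have hlt : p.1 - e * (B + 1) + e * B < n := by
        have := p.2
        have h8 : e * (B + 1) = e * B + e := by ring
        omega
      refine ⟨((p, ⟨p.1 - e * (B + 1) + e * B, hlt⟩), true), mem_image_of_mem _ (mem_univ _), ?_⟩
      refine (asg_blk_rest hp ?_).2 ?_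
      · simp only; omega
      · simp only; omega
  · refine ⟨π, Subset.refl _, hπ, by omega, ?_⟩
    intro π'' _ h6
    by_contra hcon
    have hcon' : ∀ l ∈ ({((p₁, h), false), ((p₂, h), false)} :
        Finset (Lit (Fin (n + e) × Fin n))), ¬ asg (blk n e B hB) π'' l.1 = l.2 := by
      intro l hl h7
      exact hcon ⟨l, hl, h7⟩
    have c1 : asg (blk n e B hB) π'' (p₁, h) = true := by
      simpa using hcon' ((p₁, h), false) (by simp)
    have c2 : asg (blk n e B hB) π'' (p₂, h) = true := by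
      simpa using hcon' ((p₂, h), false) (by simp)
    by_cases hh : h.1 < e * B
    · have d1 : p₁.1 < e * (B + 1) := by
        by_contra hd
        exact asg_blk_mixed (fun hiff => hd (hiff.2 hh)) c1
      have d2 : p₂.1 < e * (B + 1) := by
        by_contra hd
        exact asg_blk_mixed (fun hiff => hd (hiff.2 hh)) c2
      rw [asg_blk_block d1 hh] at c1
      rw [asg_blk_block d2 hh] at c2
      have h8 := h6 _ c1.2 _ c2.2 (Or.inr rfl)
      have h9 : p₁.1 % (B + 1) = p₂.1 % (B + 1) := by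
        have := congrArg (fun e : Edge B => e.1.1) h8
        simpa using this
      apply hne
      apply Fin.ext
      rw [← Nat.div_add_mod p₁.1 (B + 1), ← Nat.div_add_mod p₂.1 (B + 1), h9, c1.1, c2.1]
    · have d1 : e * (B + 1) ≤ p₁.1 := by
        by_contra hd
        exact asg_blk_mixed (fun hiff => hh (hiff.1 (not_le.1 hd))) c1
      have d2 : e * (B + 1) ≤ p₂.1 := by
        by_contra hd
        exact asg_blk_mixed (fun hiff => hh (hiff.1 (not_le.1 hd))) c2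
      rw [asg_blk_rest d1 (not_lt.1 hh)] at c1
      rw [asg_blk_rest d2 (not_lt.1 hh)] at c2
      apply hne
      apply Fin.ext
      omega

lemma finite_bound (t n m w f : ℕ) (hnm : n < m) (ht : 2 ^ 15 * t ^ 9 * (m - n) ≤ n)
    (hw : w ≤ t) (hf : f ≤ t) (R : Refutation n m w f) : 2 ^ t ≤ R.len := by
  classical
  rcases Nat.eq_zero_or_pos t with rfl | htpos
  · obtain ⟨i, -⟩ := R.last
    have := i.2
    simp; omega
  obtain ⟨e, rfl⟩ : ∃ e, m = n + e := ⟨m - n, by omega⟩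
  rw [show n + e - n = e by omega] at ht
  have he : 0 < e := by omega
  by_contra hcon
  rw [not_le] at hcon
  have hBt : 2 ^ 15 * t ^ 9 ≤ n / e := by
    rw [Nat.le_div_iff_mul_le he]; exact ht
  set B := n / e with hBdef
  have ht9 : 1 ≤ t ^ 9 := Nat.one_le_pow _ _ htpos
  have hB : 0 < B := by omega
  have hn : e * B ≤ n := Nat.mul_div_le n e
  have ht2 : t ^ 2 ≤ t ^ 9 := Nat.pow_le_pow_right htpos (by norm_num)
  have ht1 : t ≤ t ^ 2 := by nlinarith
  have ht1' : 1 ≤ t ^ 2 := Nat.one_le_pow _ _ htpos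
  refine core (blk n e B hB)
    {C | ∃ φ ∈ phpClauses n (n + e), C = fun a => φ.Sat a} ?_ (S := R.len) (w := t) (f := t)
    (ℓ := 8 * t ^ 2) (s := t) (fun i => toD (R.line i)) ?_ ?_ ?_ ?_ ?_ ?_
  · rintro C ⟨φ, hφ, rfl⟩ π hπ hπc
    exact ax_ok hB hn φ hφ π hπ hπc
  · intro i T hT
    exact (card_toD (R.width_le i) T hT).trans hw
  · intro i
    obtain ⟨P, Q, hP, hQ, hlt, hQs, himp⟩ := R.infer i
    have hQfin : Q.Finite := Set.finite_of_encard_le_coe hQ
    refine ⟨P, (hQfin.toFinset.toList).map fun φ a => φ.Sat a, hP.trans hf, ?_, hlt, ?_, ?_⟩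
    · rw [List.length_map, Finset.length_toList]
      have : ((hQfin.toFinset.card : ℕ) : ℕ∞) ≤ f := by
        rw [← Set.encard_coe_eq_coe_finsetCard, Set.Finite.coe_toFinset]
        exact hQ
      exact (Nat.cast_le.1 this).trans hf
    · intro C hC
      obtain ⟨φ, hφ, rfl⟩ := List.mem_map.1 hC
      have : φ ∈ Q := by simpa using hφ
      exact ⟨φ, hQs this, rfl⟩
    · intro a h1 h2
      rw [satD_toD]
      refine himp a (fun j hj => (satD_toD a _).1 (h1 j hj)) ?_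
      intro φ hφ
      exact h2 (fun a => φ.Sat a) (List.mem_map.2 ⟨φ, by simpa using hφ, rfl⟩)
  · obtain ⟨i, h1, h2⟩ := R.last
    refine ⟨i, fun a ha => ?_⟩
    rw [satD_toD] at ha
    obtain ⟨φ, hφ, -⟩ := ha (by rw [h1]; simp)
    rw [h2] at hφ
    exact hφ
  · have : 2 * t * (t + 1) + t + 2 * t + 1 = 2 * t ^ 2 + 5 * t + 1 := by ring
    omega
  · omega
  · have h1 : 8 * t ^ 2 * (8 * t ^ 2 + 1) ≤ 72 * t ^ 4 := by nlinarith
    have h2 : 2 * (t * (8 * t ^ 2 * (8 * t ^ 2 + 1))) * (8 * t ^ 2 * (8 * t ^ 2 + 1)) ≤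
        10368 * t ^ 9 := by
      calc 2 * (t * (8 * t ^ 2 * (8 * t ^ 2 + 1))) * (8 * t ^ 2 * (8 * t ^ 2 + 1))
          ≤ 2 * (t * (72 * t ^ 4)) * (72 * t ^ 4) := by gcongr
        _ = 10368 * t ^ 9 := by ring
    have h3 : 2 * (10368 * t ^ 9) ≤ B - 8 * t ^ 2 := by omega
    calc R.len * (2 * (t * (8 * t ^ 2 * (8 * t ^ 2 + 1))) * (8 * t ^ 2 * (8 * t ^ 2 + 1))) ^ t
        ≤ R.len * (10368 * t ^ 9) ^ t := by gcongr
      _ < 2 ^ t * (10368 * t ^ 9) ^ t := by
          apply Nat.mul_lt_mul_of_pos_right hcon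
          positivity
      _ = (2 * (10368 * t ^ 9)) ^ t := by rw [← mul_pow]
      _ ≤ (B - 8 * t ^ 2) ^ t := Nat.pow_le_pow_left h3 _

open Filter in
lemma eventually_big : ∀ᶠ n : ℕ in atTop, (2 : ℝ) ^ 25 * (n : ℝ) ^ ((37 : ℝ) / 38) ≤ n := by
  have h1 : Tendsto (fun n : ℕ => (n : ℝ) ^ ((1 : ℝ) / 38)) atTop atTop :=
    (tendsto_rpow_atTop (by norm_num)).comp tendsto_natCast_atTop_atTop
  filter_upwards [h1.eventually_ge_atTop ((2 : ℝ) ^ 25), eventually_ge_atTop 1] with n h2 h3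
  have hn : (0 : ℝ) < n := by exact_mod_cast h3
  calc (2 : ℝ) ^ 25 * (n : ℝ) ^ ((37 : ℝ) / 38)
      ≤ (n : ℝ) ^ ((1 : ℝ) / 38) * (n : ℝ) ^ ((37 : ℝ) / 38) := by gcongr
    _ = n := by
      rw [← Real.rpow_add hn]; norm_num

open Filter in
lemma exp_bound : ∀ᶠ n : ℕ in atTop, ∀ m : ℕ, |(m : ℝ) - (n + Real.sqrt n)| ≤ 1 →
    ∀ w f : ℕ, (w : ℝ) ≤ (n : ℝ) ^ ((1 : ℝ) / 19) → (f : ℝ) ≤ (n : ℝ) ^ ((1 : ℝ) / 19) →
    ∀ R : Refutation n m w f, (2 : ℝ) ^ ((n : ℝ) ^ ((1 : ℝ) / 19)) ≤ R.len := by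
  filter_upwards [eventually_big, eventually_ge_atTop 4] with n hbig hn4 m hm w f hw hf R
  have hn : (4 : ℝ) ≤ n := by exact_mod_cast hn4
  have hn0 : (0 : ℝ) < n := by linarith
  have hs : (2 : ℝ) ≤ Real.sqrt n := by
    rw [show (2 : ℝ) = Real.sqrt 4 by
      rw [show (4 : ℝ) = 2 ^ 2 by norm_num, Real.sqrt_sq (by norm_num)]]
    exact Real.sqrt_le_sqrt hn
  rw [abs_le] at hm
  have hnm : n < m := by
    have : (n : ℝ) < m := by linarith
    exact_mod_cast this
  have hmn : ((m - n : ℕ) : ℝ) ≤ 2 * (n : ℝ) ^ ((1 : ℝ) / 2) := by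
    rw [Nat.cast_sub hnm.le, ← Real.sqrt_eq_rpow]
    linarith
  set y := (n : ℝ) ^ ((1 : ℝ) / 19) with hy
  have hy1 : 1 ≤ y := Real.one_le_rpow (by linarith) (by norm_num)
  have ht : ((⌈y⌉₊ : ℕ) : ℝ) ≤ 2 * y := by
    have := Nat.ceil_lt_add_one (show 0 ≤ y by linarith)
    linarith
  have hle : y ≤ (⌈y⌉₊ : ℕ) := Nat.le_ceil y
  have hy9 : y ^ 9 = (n : ℝ) ^ ((9 : ℝ) / 19) := by
    rw [hy, ← Real.rpow_natCast, ← Real.rpow_mul hn0.le]
    norm_num
  have hmain : 2 ^ 15 * ⌈y⌉₊ ^ 9 * (m - n) ≤ n := by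
    have : ((2 ^ 15 * ⌈y⌉₊ ^ 9 * (m - n) : ℕ) : ℝ) ≤ n := by
      rw [Nat.cast_mul, Nat.cast_mul, Nat.cast_pow, Nat.cast_pow]
      calc ((2 : ℕ) : ℝ) ^ 15 * ((⌈y⌉₊ : ℕ) : ℝ) ^ 9 * ((m - n : ℕ) : ℝ)
          ≤ ((2 : ℕ) : ℝ) ^ 15 * (2 * y) ^ 9 * (2 * (n : ℝ) ^ ((1 : ℝ) / 2)) := by gcongr
        _ = (2 : ℝ) ^ 25 * (y ^ 9 * (n : ℝ) ^ ((1 : ℝ) / 2)) := by push_cast; ring
        _ = (2 : ℝ) ^ 25 * (n : ℝ) ^ ((37 : ℝ) / 38) := by
            rw [hy9, ← Real.rpow_add hn0]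
            norm_num
        _ ≤ n := hbig
    exact_mod_cast this
  have hfin := finite_bound ⌈y⌉₊ n m w f hnm hmain
    (by exact_mod_cast hw.trans hle) (by exact_mod_cast hf.trans hle) R
  calc (2 : ℝ) ^ y ≤ (2 : ℝ) ^ ((⌈y⌉₊ : ℕ) : ℝ) :=
        Real.rpow_le_rpow_of_exponent_le (by norm_num) hle
    _ = (2 : ℝ) ^ ⌈y⌉₊ := Real.rpow_natCast _ _
    _ ≤ R.len := by exact_mod_cast hfin

open Filter in
lemma eventually_log (c : ℕ) (K : ℝ) :
    ∀ᶠ n : ℕ in atTop, K * Real.log n ^ c < (n : ℝ) ^ ((1 : ℝ) / 19) := by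
  have h1 : (fun x : ℝ => Real.log x ^ (c : ℝ)) =o[atTop] fun x => x ^ ((1 : ℝ) / 19) :=
    isLittleO_log_rpow_rpow_atTop _ (by norm_num)
  have h2 := h1.def (c := 1 / (|K| + 1)) (by positivity)
  have h3 := tendsto_natCast_atTop_atTop (R := ℝ) |>.eventually h2
  filter_upwards [h3, eventually_ge_atTop 1] with n h4 h5
  have hn : (0 : ℝ) < n := by exact_mod_cast h5
  have hpos : 0 < (n : ℝ) ^ ((1 : ℝ) / 19) := Real.rpow_pos_of_pos hn _
  rw [Real.rpow_natCast, Real.norm_of_nonneg hpos.le, Real.norm_eq_abs] at h4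
  have hK : 0 < |K| + 1 := by positivity
  calc K * Real.log n ^ c ≤ |K| * |Real.log n ^ c| := by
        rw [← abs_mul]; exact le_abs_self _
    _ ≤ |K| * (1 / (|K| + 1) * (n : ℝ) ^ ((1 : ℝ) / 19)) := by gcongr
    _ = (|K| / (|K| + 1)) * (n : ℝ) ^ ((1 : ℝ) / 19) := by ring
    _ < 1 * (n : ℝ) ^ ((1 : ℝ) / 19) := by
        apply mul_lt_mul_of_pos_right _ hpos
        rw [div_lt_one hK]; linarith
    _ = _ := one_mul _

open Filter in
lemma quasi_bound (c : ℕ) (C : ℝ) : ∀ᶠ n : ℕ in atTop, ∀ m : ℕ,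
    |(m : ℝ) - (n + Real.sqrt n)| ≤ 1 →
    ∀ w f : ℕ, (w : ℝ) ≤ Real.log (m * n) ^ c → (f : ℝ) ≤ Real.log (m * n) ^ c →
    ∀ R : Refutation n m w f, (n : ℝ) ^ (C * Real.log n) < R.len := by
  filter_upwards [exp_bound, eventually_log c ((3 : ℝ) ^ c), eventually_log 2 (C / Real.log 2),
    eventually_ge_atTop 4] with n h1 h2 h3 h4 m hm w f hw hf R
  have hn : (4 : ℝ) ≤ n := by exact_mod_cast h4
  have hn0 : (0 : ℝ) < n := by linarith
  have hsq : Real.sqrt n * Real.sqrt n = n := Real.mul_self_sqrt hn0.le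
  have hs : (2 : ℝ) ≤ Real.sqrt n := by
    rw [show (2 : ℝ) = Real.sqrt 4 by
      rw [show (4 : ℝ) = 2 ^ 2 by norm_num, Real.sqrt_sq (by norm_num)]]
    exact Real.sqrt_le_sqrt hn
  have hm' := hm
  rw [abs_le] at hm'
  have hm1 : (m : ℝ) ≤ n * n := by nlinarith
  have hm0 : (1 : ℝ) ≤ m := by linarith
  have hlog0 : 0 ≤ Real.log (m * n) := Real.log_nonneg (by nlinarith)
  have hlog : Real.log (m * n) ≤ 3 * Real.log n := by
    rw [show (3 : ℝ) * Real.log n = Real.log ((n : ℝ) ^ (3 : ℕ)) by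
      rw [Real.log_pow]; norm_num]
    apply Real.log_le_log (by positivity)
    nlinarith
  have hc : Real.log (m * n) ^ c ≤ (n : ℝ) ^ ((1 : ℝ) / 19) := by
    calc Real.log (m * n) ^ c ≤ (3 * Real.log n) ^ c := by gcongr
      _ = (3 : ℝ) ^ c * Real.log n ^ c := mul_pow _ _ _
      _ ≤ _ := h2.le
  refine lt_of_lt_of_le ?_ (h1 m hm w f (hw.trans hc) (hf.trans hc) R)
  have hl2 : 0 < Real.log 2 := Real.log_pos (by norm_num)
  rw [Real.rpow_def_of_pos hn0, Real.rpow_def_of_pos (by norm_num : (0 : ℝ) < 2)]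
  apply Real.exp_lt_exp.2
  have h5 : C * Real.log n ^ 2 < Real.log 2 * (n : ℝ) ^ ((1 : ℝ) / 19) := by
    have := mul_lt_mul_of_pos_left h3 hl2
    calc C * Real.log n ^ 2 = Real.log 2 * (C / Real.log 2 * Real.log n ^ 2) := by
          field_simp
      _ < _ := this
  calc Real.log n * (C * Real.log n) = C * Real.log n ^ 2 := by ring
    _ < _ := h5

open Filter in
/-- **Statement (B) fails.**

(1) For all `t, n, m, w, f` with `n < m`, `2^15 t^9 (m - n) ≤ n` and `w, f ≤ t`, every refutation of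
the clauses of `¬PHP_n^m` by sequents of clauses and conjunctions of width at most `w`, each a semantic
consequence of at most `f` earlier sequents and at most `f` clauses, has at least `2^t` sequents.

(2) For all large `n` and `m = n + √n` rounded to an integer, if `w, f ≤ n^{1/19}` there are at least
`2^{n^{1/19}}` sequents.

(3) For every `c` and `C`, for all large `n` and `m = n + √n` rounded to an integer, if
`w, f ≤ (log N)^c`, `N = m n` being the number of variables, there are more than `n^{C log n}`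
sequents. -/
theorem result :
    (∀ t n m w f : ℕ, n < m → 2 ^ 15 * t ^ 9 * (m - n) ≤ n → w ≤ t → f ≤ t →
      ∀ R : Refutation n m w f, 2 ^ t ≤ R.len) ∧
    (∀ᶠ n : ℕ in atTop, ∀ m : ℕ, |(m : ℝ) - (n + Real.sqrt n)| ≤ 1 →
      ∀ w f : ℕ, (w : ℝ) ≤ (n : ℝ) ^ ((1 : ℝ) / 19) → (f : ℝ) ≤ (n : ℝ) ^ ((1 : ℝ) / 19) →
      ∀ R : Refutation n m w f, (2 : ℝ) ^ ((n : ℝ) ^ ((1 : ℝ) / 19)) ≤ R.len) ∧
    (∀ (c : ℕ) (C : ℝ), ∀ᶠ n : ℕ in atTop, ∀ m : ℕ, |(m : ℝ) - (n + Real.sqrt n)| ≤ 1 →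
      ∀ w f : ℕ, (w : ℝ) ≤ Real.log (m * n) ^ c → (f : ℝ) ≤ Real.log (m * n) ^ c →
      ∀ R : Refutation n m w f, (n : ℝ) ^ (C * Real.log n) < R.len) :=
  ⟨fun t n m w f hnm ht hw hf R => finite_bound t n m w f hnm ht hw hf R, exp_bound, quasi_bound⟩

end Pool.Agent.Results.MP_c109c8_lc.NoQuasipolyFrege15
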